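import Mathlib
import Pool.Agent.V11311.ER.Q

set_option autoImplicit false

/-!
The longest blocks with a large proportion of odd (or even) terms along typical trajectories.
-/

namespace Pool.Agent.Results.MP_a1568a_nt.BlockProportions

open Filter Topology

/-- the `3x+1` function -/
def T (n : ℕ) : ℕ := if n % 2 = 0 then n / 2 else (3 * n + 1) / 2

/-- the positive integers with the property `P` have the natural density `δ` -/
def HasDensity (P : ℕ → Prop) (δ : ℝ) : Prop :=
  Tendsto (fun N : ℕ => ({n : ℕ | 1 ≤ n ∧ n ≤ N ∧ P n}.ncard : ℝ) / N) atTop (𝓝 δ)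

/-- `log 2 - H(θ)`, where `H` is the binary entropy (natural logarithms); `I 1 = log 2` -/
noncomputable def I (θ : ℝ) : ℝ := Real.log 2 - Real.binEntropy θ

/-- the number of terms of the parity `r` among `m, T m, ..., T^(w-1) m` -/
def count (r w m : ℕ) : ℕ := ((Finset.range w).filter fun i => T^[i] m % 2 = r).card

/-- in no block of at least `u` consecutive terms of the trajectory of `n` before the first term `≤ n ^ κ`
the proportion of the terms of the parity `r` is `θ` or more -/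
def NoBlock (r : ℕ) (θ κ u : ℝ) (n : ℕ) : Prop :=
  ∀ s w : ℕ, u ≤ w → (∀ j, j < s + w → (n : ℝ) ^ κ < T^[j] n) → (count r w (T^[s] n) : ℝ) < θ * w

/-- in some block of at least `u` consecutive terms of the trajectory of `n` before the first term `≤ n ^ κ`
the proportion of the terms of the parity `r` is `θ` or more -/
def SomeBlock (r : ℕ) (θ κ u : ℝ) (n : ℕ) : Prop :=
  ∃ s w : ℕ, u ≤ w ∧ (∀ j, j < s + w → (n : ℝ) ^ κ < T^[j] n) ∧ θ * w ≤ (count r w (T^[s] n) : ℝ)

open Pool.Agent.V11311.RC Pool.Agent.V11311.FP Pool.Agent.V11311.ER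

theorem conv {P : ℕ → Prop} {δ : ℝ} (h : HasD P δ) : HasDensity P δ := by
  classical
  unfold HasDensity
  unfold HasD at h
  refine h.congr fun N => ?_
  congr 1
  unfold cN
  rw [← Set.ncard_coe_finset]
  congr 2
  ext n
  rw [Finset.mem_coe, Finset.mem_filter, Finset.mem_Icc]
  constructor
  · rintro ⟨⟨h1, h2⟩, h3⟩; exact ⟨h1, h2, h3⟩
  · rintro ⟨h1, h2, h3⟩; exact ⟨⟨h1, h2⟩, h3⟩

theorem count_eq (r w m : ℕ) : Vc (Cr 1 r) w m = count r w m := by
  classical
  rw [Vc_eq]
  unfold count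
  congr 1
  ext i
  rw [Finset.mem_filter, Finset.mem_filter]
  unfold Cr
  rw [pow_one]
  exact Iff.rfl

/-- **the law of large blocks**: for almost all `n`, for both parities -/
theorem result (θ : ℝ) (h0 : 1 / 2 < θ) (h1 : θ ≤ 1) : 0 < I θ ∧ ∀ ε κ : ℝ, 0 < ε → ε < 1 → 0 < κ → κ < 1 →
    HasDensity (fun n => ∀ r, r < 2 → NoBlock r θ κ ((1 + ε) / I θ * Real.log (Real.log n)) n ∧
      SomeBlock r θ κ ((1 - ε) / I θ * Real.log (Real.log n)) n) 1 := by
  refine ⟨rt_pos' h0, fun ε κ hε hε1 hκ hκ1 => ?_⟩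
  have hh := fun (r : ℕ) (hr : r < 2) => block_law hr h0 h1 hε hε1 hκ hκ1
  refine conv (HasD.congr (inter2 HasD_true (hh 0 (by norm_num)) (hh 1 (by norm_num)) (fun _ _ _ => trivial)
    (fun _ _ _ => trivial)) fun n _ => ?_)
  have key : ∀ r, (LoB θ ((1 + ε) / rt θ) κ r n ∧ UpB θ ((1 - ε) / rt θ) κ r n) ↔
      (NoBlock r θ κ ((1 + ε) / I θ * Real.log (Real.log n)) n ∧
      SomeBlock r θ κ ((1 - ε) / I θ * Real.log (Real.log n)) n) := by
    intro r
    unfold LoB UpB NoBlock SomeBlock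
    simp only [count_eq]
    exact Iff.rfl
  rw [key 0, key 1]
  constructor
  · rintro ⟨k0, k1⟩ r hr
    interval_cases r
    · exact k0
    · exact k1
  · intro h
    exact ⟨h 0 (by norm_num), h 1 (by norm_num)⟩

end Pool.Agent.Results.MP_a1568a_nt.BlockProportions
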