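import Mathlib
import Pool.Agent.V11311.RC.K

set_option autoImplicit false

/-!
The successive stopping times along the trajectories which reach `1` behave like independent random variables.
-/

namespace Pool.Agent.Results.MP_a1568a_nt.IndependentStoppingTimes

open Filter Topology

/-- the `3x+1` function -/
def T (n : ℕ) : ℕ := if n % 2 = 0 then n / 2 else (3 * n + 1) / 2

/-- `t` is the total stopping time of `n` -/
def TotalStoppingTime (n t : ℕ) : Prop := T^[t] n = 1 ∧ ∀ j < t, T^[j] n ≠ 1

/-- `k` is the stopping time of `n`: the least `k ≥ 1` with `T^k n < n` -/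
def StoppingTime (n k : ℕ) : Prop := 1 ≤ k ∧ (∀ i, 1 ≤ i → i < k → n ≤ T^[i] n) ∧ T^[k] n < n

/-- the first descent map: the first term of the trajectory of `n` which is smaller than `n` (and `n` itself
if there is none) -/
noncomputable def S (n : ℕ) : ℕ := T^[sInf {k : ℕ | 0 < k ∧ T^[k] n < n}] n

/-- `r` is the number of iterations of the first descent map which lead from `n` to `1` -/
def DescentSteps (n r : ℕ) : Prop := S^[r] n = 1 ∧ ∀ j < r, S^[j] n ≠ 1

/-- the set of the positive integers with the property `P` has the natural density `δ` -/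
def HasDensity (P : ℕ → Prop) (δ : ℝ) : Prop :=
  Tendsto (fun N : ℕ => ({n : ℕ | 1 ≤ n ∧ n ≤ N ∧ P n}.ncard : ℝ) / N) atTop (𝓝 δ)

open Pool.Agent.V11311.RC Pool.Agent.V11311.FP

theorem conv {P : ℕ → Prop} {δ : ℝ} (h : HasD P δ) : HasDensity P δ := by
  classical
  unfold HasDensity
  unfold HasD at h
  refine h.congr fun N => ?_
  congr 1
  unfold cN
  rw [← Set.ncard_coe_finset]
  congr 2
  ext n
  rw [Finset.mem_coe, Finset.mem_filter, Finset.mem_Icc]
  constructor
  · rintro ⟨⟨h1, h2⟩, h3⟩; exact ⟨h1, h2, h3⟩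
  · rintro ⟨h1, h2, h3⟩; exact ⟨⟨h1, h2⟩, h3⟩

theorem S_orbit (n : ℕ) : ∀ j : ℕ, ∃ i : ℕ, S^[j] n = T^[i] n := by
  intro j
  induction j with
  | zero => exact ⟨0, rfl⟩
  | succ j ih =>
    obtain ⟨i, hi⟩ := ih
    rw [Function.iterate_succ_apply', hi]
    refine ⟨sInf {k : ℕ | 0 < k ∧ T^[k] (T^[i] n) < T^[i] n} + i, ?_⟩
    rw [Function.iterate_add_apply]
    rfl

theorem steps_iff {n r : ℕ} (hn : 0 < n) :
    DescentSteps n r ↔ ∃ t, TotalStoppingTime n t ∧ r = Rec n t := by
  constructor
  · intro h
    obtain ⟨i, hi⟩ := S_orbit n r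
    rw [h.1] at hi
    obtain ⟨t, ht⟩ := (reach_iff n).1 ⟨i, hi.symm⟩
    refine ⟨t, ht, ?_⟩
    obtain ⟨h5, h6⟩ := steps_aux n hn t ht
    rcases lt_trichotomy r (Rec n t) with h1 | h1 | h1
    · exact absurd h.1 (h6 r h1)
    · exact h1
    · exact absurd h5 (h.2 _ h1)
  · rintro ⟨t, ht, rfl⟩
    exact steps_aux n hn t ht

theorem to_steps {P : ℕ → ℕ → Prop} {δ : ℝ} (h : HasD (fun n => ∃ t : ℕ, TST n t ∧ P n (Rec n t)) δ) :
    HasDensity (fun n => ∃ r : ℕ, DescentSteps n r ∧ P n r) δ := by
  refine conv (HasD.congr h fun n hn => ?_)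
  constructor
  · rintro ⟨t, ht, g⟩
    exact ⟨Rec n t, (steps_iff hn).2 ⟨t, ht, rfl⟩, g⟩
  · rintro ⟨r, hr, g⟩
    obtain ⟨t, ht, rfl⟩ := (steps_iff hn).1 hr
    exact ⟨t, ht, g⟩

open scoped Classical in
/-- **Successive stopping times are asymptotically independent.** For every `k` the positive integers with
stopping time `k` have a density `f k`, and `∑ f k = 1`. The positive integers which reach `1` have a density
`δ > 0`, and `δ = 1` if and only if all positive integers reach `1`. Let `S n` be the first term of the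
trajectory of `n` which is smaller than `n`, and `r` the least number with `S^r n = 1`.
(1) For all `m` and `k 1, ..., k m`: for almost all of the `n` which reach `1` (more precisely, for a set of
the same density `δ`), the proportion of the `j < r` for which `S^j n, S^(j+1) n, ..., S^(j+m-1) n` have the
stopping times `k 1, ..., k m` differs from the product of the `f (k i)` by at most `ε`.
(2) The same for the proportion of the `j < r` with `S^j n ≡ a` modulo `q` and `1 / q`, for all `q` prime
to `3`. -/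
theorem result : ∃ (f : ℕ → ℝ) (δ : ℝ),
    (∀ k, HasDensity (fun n => StoppingTime n k) (f k)) ∧ HasSum f 1 ∧
    0 < δ ∧ δ ≤ 1 ∧ (δ = 1 ↔ ∀ n : ℕ, 1 ≤ n → ∃ t, TotalStoppingTime n t) ∧
    HasDensity (fun n => ∃ t, TotalStoppingTime n t) δ ∧
    (∀ (m : ℕ) (k : Fin m → ℕ) (ε : ℝ), 0 < ε → HasDensity (fun n => ∃ r : ℕ, DescentSteps n r ∧
      |(((Finset.range r).filter fun j => ∀ i : Fin m, StoppingTime (S^[i + j] n) (k i)).card : ℝ)
        - r * ∏ i, f (k i)| ≤ ε * r) δ) ∧
    (∀ q a : ℕ, Nat.Coprime q 3 → a < q → ∀ ε : ℝ, 0 < ε → HasDensity (fun n => ∃ r : ℕ, DescentSteps n r ∧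
      |(((Finset.range r).filter fun j => S^[j] n % q = a).card : ℝ) - r / q| ≤ ε * r) δ) := by
  obtain ⟨ρ, hρ, -⟩ := rho_exists
  obtain ⟨δ, h0, h1, h2, h3, h4⟩ := nrm_dens
  obtain ⟨δ', -, -, -, h3', h4'⟩ := nrq_dens
  obtain rfl : δ = δ' := tendsto_nhds_unique h3 h3'
  have hmul := rho_mul hρ
  have hsum : 0 ≤ ∑' k, pr k (NC k) := tsum_nonneg fun k => pr_nonneg k _
  have hρ0 : 0 < ρ := by
    by_contra hcon
    rw [not_lt] at hcon
    have := mul_nonpos_of_nonpos_of_nonneg hcon hsum
    linarith
  refine ⟨fun k => prq (2 ^ k) (stpP k), δ, fun k => conv (stp_dens k), stp_sum, h0, h1, ?_, ?_, ?_, ?_⟩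
  · rw [h2]
    exact forall_congr' fun n => imp_congr_right fun _ => reach_iff n
  · exact conv (HasD.congr h3 fun n _ => reach_iff n)
  · intro m k ε hε
    have h5 := chain_law h3 h4' h4 hρ hρ0 (q := 2 ^ (List.ofFn k).sum) (by positivity)
      (Nat.Coprime.pow_left _ (by norm_num)) (PatP_per (List.ofFn k)) (B := Pat (List.ofFn k))
      (pat_large (List.ofFn k)) ε hε
    have hprod : prq (2 ^ (List.ofFn k).sum) (PatP (List.ofFn k)) = ∏ i, prq (2 ^ k i) (stpP (k i)) := by
      rw [PatP_dens, List.map_ofFn, List.prod_ofFn]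
      rfl
    rw [hprod] at h5
    refine to_steps (P := fun n r => |(((Finset.range r).filter fun j => ∀ i : Fin m,
      StoppingTime (S^[i + j] n) (k i)).card : ℝ) - r * ∏ i, prq (2 ^ k i) (stpP (k i))| ≤ ε * r)
      (HasD.congr h5 fun n _ => ?_)
    refine exists_congr fun t => and_congr_right fun _ => ?_
    have e : ((Finset.range (Rec n t)).filter fun j => Pat (List.ofFn k) (Pool.Agent.V11311.RC.S^[j] n))
        = ((Finset.range (Rec n t)).filter fun j => ∀ i : Fin m, StoppingTime (S^[i + j] n) (k i)) := by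
      apply Finset.filter_congr
      intro j _
      rw [pat_iff]
      constructor
      · intro h i
        have h6 := h i (by rw [List.length_ofFn]; exact i.2)
        rw [List.getElem_ofFn] at h6
        rw [Function.iterate_add_apply]
        exact h6
      · intro h i hi
        rw [List.getElem_ofFn]
        have h6 := h ⟨i, by rwa [List.length_ofFn] at hi⟩
        rw [Function.iterate_add_apply] at h6
        exact h6
    rw [e, mul_comm (∏ i, prq (2 ^ k i) (stpP (k i)))]
  · intro q a hq ha ε hε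
    have hq0 : 0 < q := by omega
    have h5 := chain_law h3 h4' h4 hρ hρ0 hq0 hq (A := fun x => x % q = a) (B := fun x => x % q = a)
      (fun x => by show x % q % q = a ↔ x % q = a; rw [Nat.mod_mod]) (L := 0) (fun _ _ => Iff.rfl) ε hε
    have e1 : prq q (fun x => x % q = a) = 1 / q := by
      rw [prq_eq]
      congr 1
      have : (Finset.range q).filter (fun x => x % q = a) = {a} := by
        ext x
        rw [Finset.mem_filter, Finset.mem_range, Finset.mem_singleton]
        constructor
        · rintro ⟨h6, h7⟩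
          rwa [Nat.mod_eq_of_lt h6] at h7
        · rintro rfl
          exact ⟨ha, Nat.mod_eq_of_lt ha⟩
      rw [this, Finset.card_singleton, Nat.cast_one]
    rw [e1] at h5
    refine to_steps (P := fun n r => |(((Finset.range r).filter fun j => S^[j] n % q = a).card : ℝ) - r / q| ≤ ε * r)
      (HasD.congr h5 fun n _ => ?_)
    refine exists_congr fun t => and_congr_right fun _ => ?_
    rw [one_div_mul_eq_div]
    convert Iff.rfl
    rfl

end Pool.Agent.Results.MP_a1568a_nt.IndependentStoppingTimes
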