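import Mathlib
import Pool.Agent.V11311.MT.C

set_option autoImplicit false

/-!
The limit law of the times at which two random trajectories of the `3x+1` function meet.
-/

namespace Pool.Agent.Results.MP_a1568a_nt.MeetingTimeLaw

open Filter Topology

/-- the `3x+1` function -/
def T (n : ℕ) : ℕ := if n % 2 = 0 then n / 2 else (3 * n + 1) / 2

/-- `m` is a term of the trajectory of `n` -/
def Visits (n m : ℕ) : Prop := ∃ j : ℕ, T^[j] n = m

/-- the trajectories of `n` and `r` have a common term -/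
def Meets (n r : ℕ) : Prop := ∃ i j : ℕ, T^[i] n = T^[j] r

/-- `r` is the smallest of the positive integers whose trajectory meets that of `r` -/
def Smallest (r : ℕ) : Prop := 0 < r ∧ ∀ n : ℕ, 0 < n → Meets n r → r ≤ n

/-- `T^i a = m` is the first term of the trajectory of `a` which is a term of the trajectory of `b`, and
`j` is the first time at which the trajectory of `b` is at `m` -/
def MeetAt (a b m i j : ℕ) : Prop :=
  T^[i] a = m ∧ (∀ i' < i, ¬ Visits b (T^[i'] a)) ∧ T^[j] b = m ∧ ∀ j' < j, T^[j'] b ≠ m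

/-- `2 / log (4/3) * log n + x * log 3 * √(2 log n / (log (4/3))^3)` -/
noncomputable def bound (x : ℝ) (n : ℕ) : ℝ :=
  2 / Real.log (4 / 3) * Real.log n
    + x * (Real.log 3 * Real.sqrt (2 * Real.log n / Real.log (4 / 3) ^ 3))

/-- The distribution function of the standard normal law. -/
noncomputable def Phi (x : ℝ) : ℝ :=
  ProbabilityTheory.cdf (ProbabilityTheory.gaussianReal 0 1) x

/-- the number of the pairs of integers in `[1, N]` with the property `E` -/
noncomputable def count (E : ℕ → ℕ → Prop) (N : ℕ) : ℕ :=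
  {v : ℕ × ℕ | 0 < v.1 ∧ v.1 ≤ N ∧ 0 < v.2 ∧ v.2 ≤ N ∧ E v.1 v.2}.ncard

theorem conv (N : ℕ) (E : ℕ → ℕ → Prop) :
    count E N = {v : Fin 2 → ℕ | (∀ i, 0 < v i ∧ v i ≤ N) ∧ E (v 0) (v 1)}.ncard := by
  unfold count
  rw [← Set.ncard_image_of_injective _ (finTwoArrowEquiv ℕ).injective]
  congr 1
  ext v
  constructor
  · rintro ⟨h1, h2, h3, h4, h5⟩
    refine ⟨(finTwoArrowEquiv ℕ).symm v, ⟨?_, ?_⟩, Equiv.apply_symm_apply _ _⟩
    · rw [Fin.forall_fin_two]
      exact ⟨⟨h1, h2⟩, h3, h4⟩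
    · exact h5
  · rintro ⟨w, ⟨h1, h2⟩, rfl⟩
    exact ⟨(h1 0).1, (h1 0).2, (h1 1).1, (h1 1).2, h2⟩

open scoped Classical in
/-- **The law of the meeting times.** For every `m` the probability that the first common term of the
trajectories of two random positive integers is `m` has a limit `p m`. The sum `S` of the `p m` is the limit
of the probability that the two trajectories meet; it is the sum of the squares of the densities `δ r` of the
classes of coalescing trajectories (represented by their smallest members `r`), and it is positive. For all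
real `x`, `y`, the pairs `(a, b)` whose trajectories meet, the meeting taking place at a time `≤ bound x a`
of `a` and at a time `≤ bound y b` of `b`, have the limiting frequency `S * Phi x * Phi y`, and those which
meet in `m` have the limiting frequency `p m * Phi x * Phi y`. So, after normalization, the times and the
place of the meeting are asymptotically independent and the times are standard normal. -/
theorem result : ∃ (δ p : ℕ → ℝ) (S : ℝ), 0 < S ∧
    (∀ r : ℕ, 0 < r → 0 < δ r ∧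
      Tendsto (fun N : ℕ => ({n : ℕ | 0 < n ∧ n ≤ N ∧ Meets n r}.ncard : ℝ) / N) atTop (𝓝 (δ r))) ∧
    HasSum (fun r : ℕ => if Smallest r then δ r ^ 2 else 0) S ∧
    HasSum p S ∧
    Tendsto (fun N : ℕ => (count Meets N : ℝ) / (N : ℝ) ^ 2) atTop (𝓝 S) ∧
    (∀ m : ℕ, Tendsto (fun N : ℕ => (count (fun a b => ∃ i j : ℕ, MeetAt a b m i j) N : ℝ) / (N : ℝ) ^ 2)
      atTop (𝓝 (p m))) ∧
    ∀ x y : ℝ,
      (∀ m : ℕ, Tendsto (fun N : ℕ => (count (fun a b => ∃ i j : ℕ,
        (i : ℝ) ≤ bound x a ∧ (j : ℝ) ≤ bound y b ∧ MeetAt a b m i j) N : ℝ) / (N : ℝ) ^ 2)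
        atTop (𝓝 (p m * Phi x * Phi y))) ∧
      Tendsto (fun N : ℕ => (count (fun a b => ∃ m i j : ℕ,
        (i : ℝ) ≤ bound x a ∧ (j : ℝ) ≤ bound y b ∧ MeetAt a b m i j) N : ℝ) / (N : ℝ) ^ 2)
        atTop (𝓝 (S * Phi x * Phi y)) := by
  classical
  choose δ hδ using Pool.Agent.V11311.DV.cls_dens
  have h : Pool.Agent.V11311.DV.IsC δ := hδ
  choose D hD' using Pool.Agent.V11311.PD.dens_exists
  have hD : Pool.Agent.V11311.PL.IsD D := hD'
  have hV : ∀ r : ℕ, Pool.Agent.V11311.DV.W δ (fun _ => True) 2 r = if Smallest r then δ r ^ 2 else 0 := by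
    intro r
    unfold Pool.Agent.V11311.DV.W
    by_cases h1 : Smallest r
    · have h2 : Pool.Agent.V11311.DV.Rep r ∧ True := ⟨h1, trivial⟩
      rw [if_pos h1, if_pos h2]
    · have h2 : ¬ (Pool.Agent.V11311.DV.Rep r ∧ True) := fun h3 => h1 h3.1
      rw [if_neg h1, if_neg h2]
  have e2 : (fun r : ℕ => if Smallest r then δ r ^ 2 else 0)
      = Pool.Agent.V11311.DV.W δ (fun _ => True) 2 := funext fun r => (hV r).symm
  have hsW := Pool.Agent.V11311.DV.W_summable h (fun _ => True) (k := 2) (by norm_num)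
  have hsum := Pool.Agent.V11311.DV.pm_sum h hD
  have hPhi : ∀ x : ℝ, Phi x = Pool.Agent.H499R2.ND.Phi x := fun x => (Pool.Agent.H499R2.ND.phi_cdf x).symm
  have hM : ∀ a b m i j : ℕ, MeetAt a b m i j ↔ Pool.Agent.V11311.MT.FT a b m i j := fun a b m i j => Iff.rfl
  have hb : ∀ (x : ℝ) (n : ℕ), 0 < n → bound x n = Pool.Agent.V11311.MT.tb x n :=
    fun x n hn => (Pool.Agent.V11311.MT.tb_eq x n hn).symm
  refine ⟨δ, Pool.Agent.V11311.DV.pm D, ∑' r, Pool.Agent.V11311.DV.W δ (fun _ => True) 2 r, ?_, ?_, ?_, hsum, ?_, ?_, ?_⟩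
  · apply hsW.tsum_pos (Pool.Agent.V11311.DV.W_nonneg h _ _) 1
    unfold Pool.Agent.V11311.DV.W
    rw [if_pos ⟨Pool.Agent.V11311.DV.rep_one, trivial⟩]
    exact pow_pos (h.pos one_pos) 2
  · intro r hr
    refine ⟨h.pos hr, ?_⟩
    have h1 := h r
    unfold Pool.Agent.V11311.FP.HasD at h1
    refine h1.congr fun N => ?_
    congr 2
    unfold Pool.Agent.V11311.FP.cN
    rw [← Set.ncard_coe_finset]
    congr 1
    ext n
    rw [Finset.mem_coe, Finset.mem_filter, Finset.mem_Icc]
    constructor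
    · rintro ⟨⟨h1, h2⟩, h3⟩; exact ⟨h1, h2, h3⟩
    · rintro ⟨h1, h2, h3⟩; exact ⟨⟨h1, h2⟩, h3⟩
  · rw [e2]
    exact hsW.hasSum
  · -- the probability of a meeting
    have hSC : ∀ N : ℕ, count Meets N = (Pool.Agent.V11311.DV.SC 2 N).ncard := by
      intro N
      rw [conv]
      congr 1
      ext v
      constructor
      · rintro ⟨h1, i, j, hij⟩
        refine ⟨h1, T^[i] (v 0), ?_⟩
        rw [Fin.forall_fin_two]
        exact ⟨⟨i, rfl⟩, ⟨j, hij.symm⟩⟩
      · rintro ⟨h1, m, hm⟩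
        obtain ⟨i, hi⟩ := hm 0
        obtain ⟨j, hj⟩ := hm 1
        exact ⟨h1, i, j, hi.trans hj.symm⟩
    rw [Metric.tendsto_atTop']
    intro ε hε
    have h1 := Pool.Agent.V11311.DV.SC_up h 0 (ε / 4) (by positivity)
    have h2 := Pool.Agent.V11311.DV.low_gen h (fun _ => True) 0 (fun N => Pool.Agent.V11311.DV.SC 2 N)
      (fun N => Pool.Agent.V11311.DV.SC_fin 2 N)
      (fun N r _ _ v hv => by
        obtain ⟨b, hb⟩ := Pool.Agent.V11311.DV.common_of_class (fun i => (hv i).2)
        exact ⟨fun i => (hv i).1, _, hb b le_rfl⟩) (ε / 2) (by positivity)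
    obtain ⟨N0, hN0⟩ := eventually_atTop.1 (h1.and h2)
    refine ⟨N0, fun N hN => ?_⟩
    obtain ⟨h3, h4⟩ := hN0 N hN.le
    rw [hSC, Real.dist_eq, abs_lt]
    simp only [zero_add] at h3 h4
    constructor <;> linarith
  · intro m
    refine (Pool.Agent.V11311.DV.FS_lim hD m).congr fun N => ?_
    congr 2
    rw [conv]
    congr 1
    ext v
    constructor
    · rintro ⟨h1, i, h2, h3, h4⟩
      obtain ⟨j, hj⟩ := Pool.Agent.V11311.MT.exists_hx h3
      exact ⟨h1, i, j, h2, h4, hj⟩
    · rintro ⟨h1, i, j, h2⟩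
      exact ⟨h1, Pool.Agent.V11311.MT.FT.fst h2⟩
  · intro x y
    rw [hPhi, hPhi]
    refine ⟨fun m => ?_, ?_⟩
    · refine (Pool.Agent.V11311.MT.FX_lim hD m x y).congr fun N => ?_
      congr 2
      rw [conv]
      congr 1
      ext v
      constructor
      · rintro ⟨h1, i, j, h2, h3, h4⟩
        exact ⟨h1, i, j, by rw [hb x _ (h1 0).1]; exact h2, by rw [hb y _ (h1 1).1]; exact h3, h4⟩
      · rintro ⟨h1, i, j, h2, h3, h4⟩
        exact ⟨h1, i, j, by rw [← hb x _ (h1 0).1]; exact h2, by rw [← hb y _ (h1 1).1]; exact h3, h4⟩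
    · refine (Pool.Agent.V11311.MT.TX_lim h hD x y).congr fun N => ?_
      congr 2
      rw [conv]
      congr 1
      ext v
      constructor
      · rintro ⟨h1, m, i, j, h2, h3, h4⟩
        exact ⟨h1, m, i, j, by rw [hb x _ (h1 0).1]; exact h2, by rw [hb y _ (h1 1).1]; exact h3, h4⟩
      · rintro ⟨h1, m, i, j, h2, h3, h4⟩
        exact ⟨h1, m, i, j, by rw [← hb x _ (h1 0).1]; exact h2, by rw [← hb y _ (h1 1).1]; exact h3, h4⟩

end Pool.Agent.Results.MP_a1568a_nt.MeetingTimeLaw
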