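import Pool.Agent.Results.MP_a1568a_nt.AlmostAllDescent
import Pool.Agent.V11285.W5

/-!
# The descent of the 3x+1 map for ALL integers in windows around `α v_n`

Let `v_n` grow at least like `exp (n ^ δ)`, for example `v_n = b ^ n`. For almost all `α > 0`, for all `ε > 0` and `B` and all
large `n` ALL integers `N` with `|N - α v_n| ≤ (log v_n) ^ B` descend to a power of `log N` in the expected time
`(2 / log (4/3) + O(ε)) log N` and along the expected profile.
-/

set_option autoImplicit false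

open Filter Topology MeasureTheory

namespace Pool.Agent.Results.MP_a1568a_nt.WindowsOfIntegers

/-- The `3x+1` function. -/
def T (n : ℕ) : ℕ := if n % 2 = 0 then n / 2 else (3 * n + 1) / 2

/-- `v_n` grows at least like `exp (n ^ δ)` for some `δ > 0` -/
def Fast (v : ℕ → ℝ) : Prop := ∃ δ : ℝ, 0 < δ ∧ ∀ᶠ n : ℕ in atTop, (n : ℝ) ^ δ ≤ Real.log (v n)

/-- `N` descends below `y` after `m` steps with `|m - (2 / log (4/3)) L| ≤ ε L`, and the logarithms of the iterates before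
deviate by at most `ε L` from `L - (j/2) log (4/3)` -/
def Descends (N : ℕ) (y ε L : ℝ) : Prop :=
  ∃ m : ℕ, ((T^[m] N : ℕ) : ℝ) ≤ y ∧ |(m : ℝ) - 2 / Real.log (4 / 3) * L| ≤ ε * L ∧
    ∀ j ≤ m, |Real.log (T^[j] N : ℕ) - (L - j / 2 * Real.log (4 / 3))| ≤ ε * L

/-- from the scale `X` to the scale `N` -/
lemma rescale {N : ℕ} {y ε L L' K y' : ℝ} (h : Descends N y ε L) (hy : y ≤ y') (h1 : L' ≤ L) (h2 : L ≤ L' + K)
    (_hε : 0 < ε) (hε1 : ε ≤ 1) (h3 : K * (2 / Real.log (4 / 3) + 2) ≤ 2 * ε * L') : Descends N y' (3 * ε) L' := by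
  obtain ⟨m, hm1, hm2, hm3⟩ := h
  have hc : 0 < 2 / Real.log (4 / 3) := by
    have : 0 < Real.log (4 / 3) := Real.log_pos (by norm_num)
    positivity
  set c := 2 / Real.log (4 / 3) with hcdef
  have hK : 0 ≤ K := by linarith
  have e1 : ε * L ≤ ε * L' + K := by nlinarith
  refine ⟨m, hm1.trans hy, ?_, fun j hj => ?_⟩
  · rw [abs_le] at hm2 ⊢
    constructor
    · nlinarith [hm2.1]
    · nlinarith [hm2.2]
  · have h4 := hm3 j hj
    rw [abs_le] at h4 ⊢
    constructor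
    · nlinarith [h4.1]
    · nlinarith [h4.2]

/-- **All integers in windows.** Let `v_n ≥ 1` grow at least like `exp (n ^ δ)`. For almost all `α > 0`, for all `ε > 0` and
`B` there are `D` and `n₀` such that for `n ≥ n₀` ALL integers `N ≥ 1` with `|N - α v_n| ≤ (log v_n) ^ B` descend:
there is `m` with `|m - (2 / log (4/3)) log N| ≤ ε log N` and `T^m N ≤ (log N) ^ D`, and
`|log T^j N - (log N - (j/2) log (4/3))| ≤ ε log N` for all `j ≤ m`. An example is `v_n = b ^ n`, for all `b > 1`. -/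
theorem result :
    (∀ v : ℕ → ℝ, (∀ n, 1 ≤ v n) → Fast v → ∀ᵐ α : ℝ, 0 < α → ∀ ε : ℝ, 0 < ε → ∀ B : ℕ,
      ∃ (D : ℝ) (n₀ : ℕ), ∀ n : ℕ, n₀ ≤ n → ∀ N : ℕ, 1 ≤ N → |(N : ℝ) - α * v n| ≤ Real.log (v n) ^ B →
        Descends N (Real.log N ^ D) ε (Real.log N)) ∧
    (∀ b : ℝ, 1 < b → Fast (fun n : ℕ => b ^ n)) := by
  refine ⟨fun v hv hf => ?_, fun b hb => Pool.Agent.V11285.W4.fast_geom b hb⟩
  obtain ⟨P, -, hP⟩ := Pool.Agent.V11285.W4.Fast.summable hf
  have hf' : Pool.Agent.V11285.W4.Fast v := hf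
  have hall : ∀ᵐ α : ℝ, ∀ j B : ℕ, 0 < α → ∃ (D : ℝ) (A : ℕ), α ≤ A ∧ ∃ n₀ : ℕ, ∀ n : ℕ, n₀ ≤ n → ∀ N : ℕ, 1 ≤ N →
      |(N : ℝ) - α * v n| ≤ (Real.log (v n)) ^ B → N ≤ ⌈((A : ℝ) + 1) * v n⌉₊ ∧
        Descends N (Real.log (⌈((A : ℝ) + 1) * v n⌉₊ : ℝ) ^ D) (1 / ((j : ℝ) + 1))
          (Real.log (⌈((A : ℝ) + 1) * v n⌉₊ : ℝ)) := by
    rw [ae_all_iff]
    intro j
    rw [ae_all_iff]
    intro B
    obtain ⟨D, hD⟩ := AlmostAllDescent.result (1 / ((j : ℝ) + 1)) ((P : ℝ) + B + 1) (by positivity) (by positivity)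
    obtain ⟨X₁, hX₁⟩ := hD.exists_forall_of_atTop
    have h1 := Pool.Agent.V11285.W5.ae_scale
      (fun X N => ¬ Descends N (Real.log X ^ D) (1 / ((j : ℝ) + 1)) (Real.log X)) B P hv hf' hP
      ⟨1, ⌈X₁⌉₊ + 3, fun X hX => by
        have hX3 : (3 : ℝ) ≤ X := by exact_mod_cast (by omega : 3 ≤ X)
        have hXX : X₁ ≤ X := (Nat.le_ceil X₁).trans (by exact_mod_cast (by omega : ⌈X₁⌉₊ ≤ X))
        have hlog1 : 1 ≤ Real.log X := by
          rw [Real.le_log_iff_exp_le (by linarith)]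
          exact Real.exp_one_lt_d9.le.trans (by linarith)
        have h2 := hX₁ X hXX
        have e : {N : ℕ | 1 ≤ N ∧ N ≤ X ∧ ¬ Descends N (Real.log X ^ D) (1 / ((j : ℝ) + 1)) (Real.log X)} =
            {n : ℕ | 1 ≤ n ∧ (n : ℝ) ≤ (X : ℝ) ∧
              ¬ ∃ m : ℕ, ((AlmostAllDescent.T^[m] n : ℕ) : ℝ) ≤ Real.log X ^ D ∧
                |(m : ℝ) - 2 / Real.log (4 / 3) * Real.log X| ≤ 1 / ((j : ℝ) + 1) * Real.log X ∧
                ∀ i ≤ m, |Real.log (AlmostAllDescent.T^[i] n : ℕ) - (Real.log X - i / 2 * Real.log (4 / 3))| ≤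
                  1 / ((j : ℝ) + 1) * Real.log X} := by
          ext n
          simp only [Set.mem_ofPred_eq, Nat.cast_le]
          rfl
        rw [e]
        refine h2.trans ?_
        rw [one_mul]
        apply div_le_div_of_nonneg_left (by linarith) (by positivity)
        rw [← Real.rpow_natCast]
        apply Real.rpow_le_rpow_of_exponent_le hlog1
        push_cast
        linarith⟩
    filter_upwards [h1] with α hα hα0
    obtain ⟨A, hA, n₀, hn₀⟩ := hα hα0
    exact ⟨D, A, hA, n₀, fun n hn N hN hw => ⟨(hn₀ n hn N hN hw).1, not_not.1 (hn₀ n hn N hN hw).2⟩⟩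
  filter_upwards [hall] with α hα hα0 ε hε B
  obtain ⟨j, hj⟩ := exists_nat_ge (3 / ε)
  have hjε : 3 * (1 / ((j : ℝ) + 1)) ≤ ε := by
    rw [div_le_iff₀ hε] at hj
    rw [mul_one_div, div_le_iff₀ (by positivity)]
    nlinarith
  obtain ⟨D, A, hA, n₀, hn₀⟩ := hα j B hα0
  set ε' : ℝ := 1 / ((j : ℝ) + 1) with hε'
  have hε'0 : 0 < ε' := by positivity
  have hε'1 : ε' ≤ 1 := by
    rw [hε', div_le_one (by positivity)]
    have : (0 : ℝ) ≤ j := Nat.cast_nonneg j
    linarith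
  have hA0 : (0 : ℝ) ≤ A := Nat.cast_nonneg A
  set K : ℝ := Real.log (2 * ((A : ℝ) + 2) / α) with hK
  set D' : ℝ := max D 0 with hD'
  have hD'0 : 0 ≤ D' := le_max_right _ _
  -- large `n`
  have hvt : Tendsto v atTop atTop := Pool.Agent.V11285.W4.Fast.tendsto hf' hv
  have hdiv : Tendsto (fun n => Real.log (v n) ^ B / v n) atTop (𝓝 0) := by
    have h3 : (fun x : ℝ => Real.log x ^ B) =o[atTop] (fun x : ℝ => x ^ (1 : ℝ)) := by
      have := isLittleO_log_rpow_rpow_atTop (s := 1) (B : ℝ) one_pos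
      simpa using this
    have h4 : Tendsto (fun x : ℝ => Real.log x ^ B / x) atTop (𝓝 0) := by
      have := h3.tendsto_div_nhds_zero
      simpa using this
    exact h4.comp hvt
  have hlogt : Tendsto (fun n => Real.log (α / 2 * v n)) atTop atTop :=
    Real.tendsto_log_atTop.comp (hvt.const_mul_atTop (by positivity))
  have hq1 := hdiv.eventually (gt_mem_nhds (show (0 : ℝ) < α / 2 by positivity))
  have hq2 := hlogt.eventually_ge_atTop (max 1 (max |K| (max (2 ^ D')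
    (|K| * (2 / Real.log (4 / 3) + 2) / (2 * ε')))))
  obtain ⟨n₁, hn₁⟩ := (hq1.and (hq2.and (hvt.eventually_ge_atTop 3))).exists_forall_of_atTop
  refine ⟨D' + 1, max n₀ n₁, fun n hn N hN hw => ?_⟩
  obtain ⟨g1, g2, g3⟩ := hn₁ n ((le_max_right _ _).trans hn)
  obtain ⟨hNX, hdesc⟩ := hn₀ n ((le_max_left _ _).trans hn) N hN hw
  have hv0 : 0 < v n := by linarith
  have hN0 : (0 : ℝ) < N := by exact_mod_cast hN
  have hNlow : α / 2 * v n ≤ N := by
    rw [div_lt_iff₀ hv0] at g1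
    have := (abs_le.1 hw).1
    linarith
  set X : ℕ := ⌈((A : ℝ) + 1) * v n⌉₊ with hX
  have hX2 : (X : ℝ) ≤ ((A : ℝ) + 2) * v n := by
    have := Nat.ceil_lt_add_one (show 0 ≤ ((A : ℝ) + 1) * v n by positivity)
    nlinarith
  have hNXr : (N : ℝ) ≤ X := by exact_mod_cast hNX
  have hX0 : (0 : ℝ) < X := by linarith
  have hL1 : Real.log N ≤ Real.log X := Real.log_le_log hN0 hNXr
  have hL2 : Real.log X ≤ Real.log N + K := by
    rw [hK, ← Real.log_mul hN0.ne' (by positivity)]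
    apply Real.log_le_log hX0
    calc (X : ℝ) ≤ ((A : ℝ) + 2) * v n := hX2
      _ = (α / 2 * v n) * (2 * ((A : ℝ) + 2) / α) := by field_simp
      _ ≤ N * (2 * ((A : ℝ) + 2) / α) := mul_le_mul_of_nonneg_right hNlow (by positivity)
  have hLN : max 1 (max |K| (max (2 ^ D') (|K| * (2 / Real.log (4 / 3) + 2) / (2 * ε')))) ≤ Real.log N :=
    g2.trans (Real.log_le_log (by positivity) hNlow)
  have hLN1 : 1 ≤ Real.log N := (le_max_left _ _).trans hLN
  have hLNK : |K| ≤ Real.log N := ((le_max_left _ _).trans (le_max_right _ _)).trans hLN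
  have hLND : 2 ^ D' ≤ Real.log N :=
    (((le_max_left _ _).trans (le_max_right _ _)).trans (le_max_right _ _)).trans hLN
  have hLNE : |K| * (2 / Real.log (4 / 3) + 2) / (2 * ε') ≤ Real.log N :=
    (((le_max_right _ _).trans (le_max_right _ _)).trans (le_max_right _ _)).trans hLN
  have hc0 : 0 < 2 / Real.log (4 / 3) + 2 := by
    have : 0 < Real.log (4 / 3) := Real.log_pos (by norm_num)
    positivity
  have hK3 : K * (2 / Real.log (4 / 3) + 2) ≤ 2 * ε' * Real.log N := by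
    rw [div_le_iff₀ (by positivity)] at hLNE
    have : K * (2 / Real.log (4 / 3) + 2) ≤ |K| * (2 / Real.log (4 / 3) + 2) :=
      mul_le_mul_of_nonneg_right (le_abs_self K) hc0.le
    linarith
  have hy : Real.log X ^ D ≤ Real.log N ^ (D' + 1) := by
    have h1 : 1 ≤ Real.log X := hLN1.trans hL1
    have h2 : Real.log X ≤ 2 * Real.log N := by
      have := le_abs_self K
      linarith
    calc Real.log X ^ D ≤ Real.log X ^ D' := Real.rpow_le_rpow_of_exponent_le h1 (le_max_left _ _)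
      _ ≤ (2 * Real.log N) ^ D' := Real.rpow_le_rpow (by linarith) h2 hD'0
      _ = 2 ^ D' * Real.log N ^ D' := Real.mul_rpow (by norm_num) (by linarith)
      _ ≤ Real.log N * Real.log N ^ D' := mul_le_mul_of_nonneg_right hLND (by positivity)
      _ = Real.log N ^ (D' + 1) := by
          rw [Real.rpow_add (by linarith), Real.rpow_one, mul_comm]
  have hfin := rescale hdesc hy hL1 hL2 hε'0 hε'1 hK3
  obtain ⟨m, hm1, hm2, hm3⟩ := hfin
  have hle : 3 * ε' * Real.log N ≤ ε * Real.log N := mul_le_mul_of_nonneg_right hjε (by linarith)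
  exact ⟨m, hm1, hm2.trans hle, fun i hi => (hm3 i hi).trans hle⟩

end Pool.Agent.Results.MP_a1568a_nt.WindowsOfIntegers
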